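import Pool.Agent.N869.QA.L.Stm

/-!
# Project QA (helper869): the upper bound for the weighted sums (QA-WALL), by helper821
-/

set_option autoImplicit false

open scoped Classical

namespace Pool.Agent.N821.QA

open Finset
open Pool.Agent.N869.QA.L

variable {R : Type}

lemma nrm_pos (G : GP R) {S : Finset R} (h : ∀ π ∈ S, G.Pq π) : 1 ≤ ∏ π ∈ S, G.nrm π :=
  Finset.one_le_prod' fun π hπ => by have := G.two_le π (h π hπ); omega

lemma nrm_le (G : GP R) {S : Finset R} (h : ∀ π ∈ S, G.Pq π) {π : R} (hπ : π ∈ S) :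
    G.nrm π ≤ ∏ ρ ∈ S, G.nrm ρ := by
  rw [← Finset.mul_prod_erase S G.nrm hπ]
  exact Nat.le_mul_of_pos_right _ (nrm_pos G fun ρ hρ => h ρ (Finset.mem_of_mem_erase hρ))

lemma mem_SAg (G : GP R) {S : Finset R} {X : ℕ} :
    S ∈ SAg G X ↔ (∀ π ∈ S, G.Pq π) ∧ ∏ π ∈ S, G.nrm π ≤ X := by
  unfold SAg
  rw [mem_filter, mem_powerset]
  constructor
  · rintro ⟨h1, h2⟩
    exact ⟨fun π hπ => ((G.mem X π).1 (h1 hπ)).2, h2⟩
  · rintro ⟨h1, h2⟩
    exact ⟨fun π hπ => (G.mem X π).2 ⟨(nrm_le G h1 hπ).trans h2, h1 π hπ⟩, h2⟩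

lemma SAg_mono (G : GP R) {X Y : ℕ} (h : X ≤ Y) : SAg G X ⊆ SAg G Y := by
  intro S hS
  rw [mem_SAg] at hS ⊢
  exact ⟨hS.1, hS.2.trans h⟩

/-- the logarithmic sum -/
noncomputable def WL (G : GP R) (r X : ℕ) : ℝ :=
  ∑ S ∈ SAg G X, (r : ℝ) ^ S.card / (∏ π ∈ S, G.nrm π : ℕ)

lemma WS_nonneg (G : GP R) (r X : ℕ) : 0 ≤ WS G r X := sum_nonneg fun _ _ => by positivity

lemma WL_succ (G : GP R) (r X : ℕ) :
    WL G r (X + 1) - WL G r X = (WS G r (X + 1) - WS G r X) / (X + 1) := by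
  unfold WL WS
  rw [← sum_sdiff (SAg_mono G (Nat.le_succ X)), ← sum_sdiff (SAg_mono G (Nat.le_succ X)),
    add_sub_cancel_right, add_sub_cancel_right, sum_div]
  apply sum_congr rfl
  intro S hS
  rw [mem_sdiff, mem_SAg, mem_SAg] at hS
  have h1 : ∏ π ∈ S, G.nrm π = X + 1 := by
    have h2 := hS.1.2
    have h3 : ¬ ∏ π ∈ S, G.nrm π ≤ X := fun h => hS.2 ⟨hS.1.1, h⟩
    omega
  rw [h1]
  push_cast
  rfl

lemma WL_one (G : GP R) (r : ℕ) : WL G r 1 = WS G r 1 := by
  unfold WL WS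
  apply sum_congr rfl
  intro S hS
  rw [mem_SAg] at hS
  have h1 := nrm_pos G hS.1
  have h2 : ∏ π ∈ S, G.nrm π = 1 := le_antisymm hS.2 h1
  rw [h2]
  simp

lemma L1_mono {X Y : ℕ} (hX : 1 ≤ X) (h : X ≤ Y) : L1 X ≤ L1 Y := by
  unfold L1
  have h1 : Real.log X ≤ Real.log Y := Real.log_le_log (by exact_mod_cast hX) (by exact_mod_cast h)
  linarith

lemma one_le_L1 (X : ℕ) : 1 ≤ L1 X := by
  unfold L1
  have := Real.log_natCast_nonneg X
  linarith

/-- summation by parts -/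
lemma WL_le (G : GP R) (r k : ℕ) (C : ℝ) (hC : 0 ≤ C)
    (h : ∀ X : ℕ, 1 ≤ X → WS G r X ≤ C * (X * L1 X ^ k)) (X : ℕ) (hX : 1 ≤ X) :
    WL G r X ≤ C * L1 X ^ (k + 1) := by
  have key : ∀ X : ℕ, 1 ≤ X → WL G r X - WS G r X / X ≤ C * (L1 X ^ k * Real.log X) := by
    intro X hX
    induction X, hX using Nat.le_induction with
    | base => rw [WL_one]; simp
    | succ X hX ih =>
      have hX0 : (0 : ℝ) < X := by exact_mod_cast hX
      have h1 := WL_succ G r X
      have h2 := h X hX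
      have h3 : WS G r X / (X * (X + 1)) ≤ C * (L1 X ^ k * (1 / (X + 1))) := by
        rw [div_le_iff₀ (by positivity)]
        calc WS G r X ≤ C * (X * L1 X ^ k) := h2
          _ = C * (L1 X ^ k * (1 / (X + 1))) * (X * (X + 1)) := by field_simp
      have h4 : WS G r X / X - WS G r X / (X + 1) = WS G r X / (X * (X + 1)) := by
        field_simp
        ring
      have h5 : 1 / ((X : ℝ) + 1) ≤ Real.log (X + 1) - Real.log X := by
        rw [← Real.log_div (by positivity) (by positivity)]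
        have h6 := Real.one_sub_inv_le_log_of_pos (x := ((X : ℝ) + 1) / X) (by positivity)
        refine le_trans (le_of_eq ?_) h6
        field_simp
        ring
      have h7 : L1 X ^ k ≤ L1 (X + 1) ^ k :=
        pow_le_pow_left₀ (by linarith [one_le_L1 X]) (L1_mono hX (Nat.le_succ X)) k
      have h8 : 0 ≤ Real.log X := Real.log_natCast_nonneg X
      have h9 : 0 < L1 X ^ k := pow_pos (by linarith [one_le_L1 X]) k
      have e1 : WL G r (X + 1) - WS G r (X + 1) / ((X + 1 : ℕ) : ℝ) =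
          (WL G r X - WS G r X / X) + WS G r X / (X * (X + 1)) := by
        push_cast
        rw [← h4]
        have : WL G r (X + 1) = WL G r X + (WS G r (X + 1) - WS G r X) / (X + 1) := by linarith
        rw [this]
        ring
      rw [e1]
      calc (WL G r X - WS G r X / X) + WS G r X / (X * (X + 1))
          ≤ C * (L1 X ^ k * Real.log X) + C * (L1 X ^ k * (1 / (X + 1))) := add_le_add ih h3
        _ = C * (L1 X ^ k * (Real.log X + 1 / (X + 1))) := by ring
        _ ≤ C * (L1 (X + 1) ^ k * Real.log ((X + 1 : ℕ) : ℝ)) := by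
          apply mul_le_mul_of_nonneg_left _ hC
          have h10 : 0 ≤ 1 / ((X : ℝ) + 1) := by positivity
          apply mul_le_mul h7 _ (by linarith) (pow_nonneg (by linarith [one_le_L1 (X + 1)]) k)
          push_cast
          linarith
  have h1 := key X hX
  have h2 := h X hX
  have hX0 : (0 : ℝ) < X := by exact_mod_cast hX
  have h3 : WS G r X / X ≤ C * L1 X ^ k := by
    rw [div_le_iff₀ hX0]
    linarith
  calc WL G r X ≤ C * L1 X ^ k + C * (L1 X ^ k * Real.log X) := by linarith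
    _ = C * L1 X ^ (k + 1) := by
      rw [pow_succ]
      nth_rewrite 4 [L1]
      ring

/-- adding one colour -/
lemma WS_succ (G : GP R) (r X : ℕ) : WS G (r + 1) X ≤
    ∑ M ∈ SAg G X, (r : ℝ) ^ M.card * ((SAg G (X / ∏ π ∈ M, G.nrm π)).card : ℝ) := by
  have h1 : WS G (r + 1) X = ∑ S ∈ SAg G X, ∑ M ∈ S.powerset, (r : ℝ) ^ M.card := by
    unfold WS
    apply sum_congr rfl
    intro S _
    have h2 := Finset.sum_pow_mul_eq_add_pow (r : ℝ) 1 S
    simp only [one_pow, mul_one] at h2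
    rw [h2]
    push_cast
    rfl
  have h2 : ∑ S ∈ SAg G X, ∑ M ∈ S.powerset, (r : ℝ) ^ M.card =
      ∑ M ∈ SAg G X, ∑ _S ∈ (SAg G X).filter (fun S => M ⊆ S), (r : ℝ) ^ M.card := by
    apply sum_comm'
    intro S M
    rw [mem_powerset, mem_filter, mem_SAg, mem_SAg]
    constructor
    · rintro ⟨⟨h1, h2⟩, h3⟩
      refine ⟨⟨⟨h1, h2⟩, h3⟩, fun π hπ => h1 π (h3 hπ), le_trans ?_ h2⟩
      exact Nat.le_of_dvd (nrm_pos G h1) (prod_dvd_prod_of_subset _ _ _ h3)
    · rintro ⟨⟨⟨h1, h2⟩, h3⟩, _⟩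
      exact ⟨⟨h1, h2⟩, h3⟩
  rw [h1, h2]
  apply sum_le_sum
  intro M hM
  rw [mem_SAg] at hM
  rw [sum_const, nsmul_eq_mul, mul_comm]
  apply mul_le_mul_of_nonneg_left _ (by positivity)
  norm_cast
  apply card_le_card_of_injOn (fun S => S \ M)
  · intro S hS
    rw [mem_coe, mem_filter, mem_SAg] at hS
    rw [mem_coe, mem_SAg]
    refine ⟨fun π hπ => hS.1.1 π (mem_sdiff.1 hπ).1, ?_⟩
    rw [Nat.le_div_iff_mul_le (nrm_pos G hM.1), prod_sdiff hS.2]
    exact hS.1.2
  · intro S hS T hT h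
    rw [mem_coe, mem_filter] at hS hT
    simp only at h
    rw [← sdiff_union_of_subset hS.2, ← sdiff_union_of_subset hT.2, h]

theorem t_WALL : S_WALL := by
  intro R G D hD r hr
  set D' : ℝ := max D 1 with hD'
  have hD1 : 1 ≤ D' := le_max_right _ _
  have hD2 : D ≤ D' := le_max_left _ _
  have key : ∀ k : ℕ, ∀ X : ℕ, 1 ≤ X → WS G (k + 1) X ≤ D' ^ (k + 1) * (X * L1 X ^ k) := by
    intro k
    induction k with
    | zero =>
      intro X hX
      have h1 := hD X hX
      have h2 : WS G (0 + 1) X = ((SAg G X).card : ℝ) := by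
        unfold WS
        simp
      rw [h2, pow_zero, mul_one, zero_add, pow_one]
      exact h1.trans (mul_le_mul_of_nonneg_right hD2 (Nat.cast_nonneg X))
    | succ k ih =>
      intro X hX
      have h1 := WS_succ G (k + 1) X
      have h2 := WL_le G (k + 1) k (D' ^ (k + 1)) (by positivity) ih X hX
      refine h1.trans ?_
      calc ∑ M ∈ SAg G X, ((k + 1 : ℕ) : ℝ) ^ M.card *
            ((SAg G (X / ∏ π ∈ M, G.nrm π)).card : ℝ)
          ≤ ∑ M ∈ SAg G X, D' * X * (((k + 1 : ℕ) : ℝ) ^ M.card / (∏ π ∈ M, G.nrm π : ℕ)) := by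
            apply sum_le_sum
            intro M hM
            rw [mem_SAg] at hM
            have h3 : 1 ≤ X / ∏ π ∈ M, G.nrm π := by
              rw [Nat.le_div_iff_mul_le (nrm_pos G hM.1), one_mul]
              exact hM.2
            have h4 := hD _ h3
            have h5 : ((X / ∏ π ∈ M, G.nrm π : ℕ) : ℝ) ≤ (X : ℝ) / (∏ π ∈ M, G.nrm π : ℕ) :=
              Nat.cast_div_le
            have h6 : ((SAg G (X / ∏ π ∈ M, G.nrm π)).card : ℝ) ≤
                D' * ((X : ℝ) / (∏ π ∈ M, G.nrm π : ℕ)) := by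
              refine h4.trans ?_
              exact mul_le_mul hD2 h5 (Nat.cast_nonneg _) (by linarith)
            calc ((k + 1 : ℕ) : ℝ) ^ M.card * ((SAg G (X / ∏ π ∈ M, G.nrm π)).card : ℝ)
                ≤ ((k + 1 : ℕ) : ℝ) ^ M.card * (D' * ((X : ℝ) / (∏ π ∈ M, G.nrm π : ℕ))) :=
                  mul_le_mul_of_nonneg_left h6 (by positivity)
              _ = _ := by ring
        _ = D' * X * WL G (k + 1) X := by
            unfold WL
            rw [mul_sum]
        _ ≤ D' * X * (D' ^ (k + 1) * L1 X ^ (k + 1)) :=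
            mul_le_mul_of_nonneg_left h2 (by positivity)
        _ = D' ^ (k + 1 + 1) * (X * L1 X ^ (k + 1)) := by ring
  refine ⟨D' ^ r, one_le_pow₀ hD1, fun X hX => ?_⟩
  obtain ⟨k, rfl⟩ : ∃ k, r = k + 1 := ⟨r - 1, by omega⟩
  exact key k X hX

end Pool.Agent.N821.QA
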